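import Pool.Agent.Q272.BH3
import Pool.Agent.Q272.BH4
import Mathlib.Order.Preorder.Finite

/-!
# A maximal planar graph all of whose orientations have a bi-heavy vertex
-/

namespace Pool.Agent.Results.MP_7589f8_co.BiHeavyVertex

open Pool.Agent.Q272.BH

/-- `G` is planar: it has a drawing in the plane in which the vertices are distinct points, every
edge is a simple arc between its ends passing through no other vertex, and two different edges
meet only in common ends. -/
def IsPlanar {V : Type} (G : SimpleGraph V) : Prop :=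
  ∃ (p : V → ℝ × ℝ) (γ : V → V → unitInterval → ℝ × ℝ), Function.Injective p ∧
    (∀ u v, G.Adj u v → Continuous (γ u v) ∧ Function.Injective (γ u v) ∧
      γ u v 0 = p u ∧ γ u v 1 = p v ∧ ∀ w t, γ u v t = p w → w = u ∨ w = v) ∧
    ∀ u v x y, G.Adj u v → G.Adj x y → s(u, v) ≠ s(x, y) → ∀ s t, γ u v s = γ x y t →
      ∃ w, (w = u ∨ w = v) ∧ (w = x ∨ w = y) ∧ γ u v s = p w

/-- `G` is a maximal planar graph: no edge can be added with the graph staying planar. -/
def IsMaximalPlanar {V : Type} (G : SimpleGraph V) : Prop :=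
  IsPlanar G ∧ ∀ H : SimpleGraph V, G ≤ H → IsPlanar H → H = G

/-- `D` is an orientation of `G` (`D u v` meaning that the edge `uv` is directed from `u` to
`v`). -/
def IsOrientation {V : Type} (G : SimpleGraph V) (D : V → V → Prop) : Prop :=
  (∀ u v, D u v → G.Adj u v) ∧ (∀ u v, G.Adj u v → D u v ∨ D v u) ∧ ∀ u v, ¬ (D u v ∧ D v u)

theorem meet {u v x y : Fin 64} (h1 : G.Adj u v) (h2 : G.Adj x y) (hne : s(u, v) ≠ s(x, y))
    {s t : ℝ} (hs0 : 0 ≤ s) (hs1 : s ≤ 1) (ht0 : 0 ≤ t) (ht1 : t ≤ 1)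
    (heq : pt (P u) (P v) s = pt (P x) (P y) t) :
    ∃ w, (w = u ∨ w = v) ∧ (w = x ∨ w = y) ∧ pt (P u) (P v) s = P w := by
  have a1 : adjG u v = true := h1
  have a2 : adjG x y = true := h2
  have hs2 : 0 ≤ 1 - s := by linarith
  have hs3 : 1 - s ≤ 1 := by linarith
  have ht2 : 0 ≤ 1 - t := by linarith
  have ht3 : 1 - t ≤ 1 := by linarith
  rcases lt_or_gt_of_ne h1.ne with huv | huv <;> rcases lt_or_gt_of_ne h2.ne with hxy | hxy
  · have m1 := EL_mem u v huv a1
    have m2 := EL_mem x y hxy a2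
    exact list_meet m1 m2 (fun h => hne (by rw [Prod.mk.injEq] at h; rw [h.1, h.2]))
      hs0 hs1 ht0 ht1 heq
  · have m1 := EL_mem u v huv a1
    have m2 := EL_mem y x hxy (adjG_symm _ _ a2)
    rw [pt_symm (P x)] at heq
    obtain ⟨q, g1, g2, g3⟩ := list_meet m1 m2
      (fun h => hne (by rw [Prod.mk.injEq] at h; rw [h.1, h.2, Sym2.eq_swap])) hs0 hs1 ht2 ht3 heq
    exact ⟨q, g1, g2.symm, g3⟩
  · have m1 := EL_mem v u huv (adjG_symm _ _ a1)
    have m2 := EL_mem x y hxy a2
    rw [pt_symm (P u)] at heq ⊢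
    obtain ⟨q, g1, g2, g3⟩ := list_meet m1 m2
      (fun h => hne (by rw [Prod.mk.injEq] at h; rw [h.1, h.2, Sym2.eq_swap])) hs2 hs3 ht0 ht1 heq
    exact ⟨q, g1.symm, g2, g3⟩
  · have m1 := EL_mem v u huv (adjG_symm _ _ a1)
    have m2 := EL_mem y x hxy (adjG_symm _ _ a2)
    rw [pt_symm (P u)] at heq ⊢
    rw [pt_symm (P x)] at heq
    obtain ⟨q, g1, g2, g3⟩ := list_meet m1 m2
      (fun h => hne (by rw [Prod.mk.injEq] at h; rw [h.1, h.2])) hs2 hs3 ht2 ht3 heq
    exact ⟨q, g1.symm, g2.symm, g3⟩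

theorem P_inj : Function.Injective P := by
  intro u v h
  unfold P at h
  rw [Prod.mk.injEq] at h
  exact pos_inj u v (by exact_mod_cast h.1) (by exact_mod_cast h.2)

theorem planar : IsPlanar G := by
  refine ⟨P, fun u v t => pt (P u) (P v) (t : ℝ), P_inj, ?_, ?_⟩
  · intro u v huv
    refine ⟨?_, ?_, ?_, ?_, ?_⟩
    · unfold pt
      fun_prop
    · intro s t hst
      have hne : P u ≠ P v := fun h => huv.ne (P_inj h)
      unfold pt at hst
      simp only [Prod.mk.injEq, add_right_inj] at hst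
      have hor : (P v).1 - (P u).1 ≠ 0 ∨ (P v).2 - (P u).2 ≠ 0 := by
        by_contra hcon
        push Not at hcon
        exact hne (Prod.ext (by linarith [hcon.1]) (by linarith [hcon.2]))
      rcases hor with h | h
      · exact Subtype.ext (mul_right_cancel₀ h hst.1)
      · exact Subtype.ext (mul_right_cancel₀ h hst.2)
    · exact pt_zero _ _
    · exact pt_one _ _
    · intro w t ht
      by_contra hcon
      push Not at hcon
      obtain ⟨z, hz, hzu, hzv⟩ := third_nb w u v
      have h2 : G.Adj w z := hz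
      have heq : pt (P u) (P v) (t : ℝ) = pt (P w) (P z) 0 := by rw [pt_zero]; exact ht
      obtain ⟨q, g1, g2, -⟩ := meet huv h2 (by
        intro h
        rw [Sym2.eq_iff] at h
        rcases h with ⟨h, -⟩ | ⟨-, h⟩
        · exact hcon.1 h.symm
        · exact hcon.2 h.symm) t.2.1 t.2.2 le_rfl zero_le_one heq
      rcases g1 with rfl | rfl <;> rcases g2 with g2 | g2
      · exact hcon.1 g2.symm
      · exact hzu g2.symm
      · exact hcon.2 g2.symm
      · exact hzv g2.symm
  · intro u v x y huv hxy hne s t hst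
    exact meet huv hxy hne s.2.1 s.2.2 t.2.1 t.2.2 hst

/-- There is a maximal planar graph every orientation of which has a vertex with in-degree at
least `2` and out-degree at least `2`. -/
theorem result : ∃ (n : ℕ) (H : SimpleGraph (Fin n)), IsMaximalPlanar H ∧
    ∀ D : Fin n → Fin n → Prop, IsOrientation H D →
      ∃ v, 2 ≤ {w | D v w}.ncard ∧ 2 ≤ {w | D w v}.ncard := by
  obtain ⟨H, hGH, hmax⟩ := Set.Finite.exists_le_maximal
    (s := {H : SimpleGraph (Fin 64) | G ≤ H ∧ IsPlanar H}) (Set.toFinite _)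
    (show G ∈ _ from ⟨le_rfl, planar⟩)
  refine ⟨64, H, ⟨hmax.prop.2, ?_⟩, ?_⟩
  · intro K hHK hK
    have hmem : K ∈ {H : SimpleGraph (Fin 64) | G ≤ H ∧ IsPlanar H} :=
      ⟨hmax.prop.1.trans hHK, hK⟩
    exact le_antisymm (hmax.2 hmem hHK) hHK
  · rintro D ⟨h1, h2, h3⟩
    obtain ⟨v, hv1, hv2⟩ := biheavy (fun u v => D u v ∧ G.Adj u v) (fun u v h => h.2)
      (fun u v h => by
        rcases h2 u v (hGH h) with h' | h'
        · exact Or.inl ⟨h', h⟩
        · exact Or.inr ⟨h', h.symm⟩)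
      (fun u v h => h3 u v ⟨h.1.1, h.2.1⟩)
    refine ⟨v, hv1.trans ?_, hv2.trans ?_⟩
    · exact Set.ncard_le_ncard (fun w hw => hw.1) (Set.toFinite _)
    · exact Set.ncard_le_ncard (fun w hw => hw.1) (Set.toFinite _)

end Pool.Agent.Results.MP_7589f8_co.BiHeavyVertex
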